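import Pool.Agent.helper1.FI4.SpecHT

/-!
Project fi4 (MP_baa4d7_al), row NRC (spec of helper1): norms of cyclotomic integers. Seat helper24.
-/

set_option autoImplicit false

namespace Pool.Agent.FI4

open Polynomial in
theorem NRC : NRC_stmt := by
  intro n hn P
  have hn0 : NeZero n := ⟨hn.ne'⟩
  have hcyc : IsCyclotomicExtension {n} ℚ (CyclotomicField n ℚ) :=
    CyclotomicField.isCyclotomicExtension n ℚ
  have hζ : IsPrimitiveRoot (IsCyclotomicExtension.zeta n ℚ (CyclotomicField n ℚ)) n :=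
    IsCyclotomicExtension.zeta_spec n ℚ (CyclotomicField n ℚ)
  have hirr : Irreducible (cyclotomic n ℚ) := cyclotomic.irreducible_rat hn
  have h1 := Algebra.norm_eq_prod_embeddings ℚ ℂ
    (aeval (IsCyclotomicExtension.zeta n ℚ (CyclotomicField n ℚ)) P)
  have hint : IsIntegral ℤ (aeval (IsCyclotomicExtension.zeta n ℚ (CyclotomicField n ℚ)) P) :=
    adjoin_le_integralClosure (hζ.isIntegral hn) (aeval_mem_adjoin_singleton ℤ _)
  have h2 := Algebra.isIntegral_norm ℚ hint
  obtain ⟨N, hN⟩ := IsIntegrallyClosed.isIntegral_iff.mp h2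
  refine ⟨N, ?_⟩
  have h3 : ((N : ℤ) : ℂ) = algebraMap ℚ ℂ (Algebra.norm ℚ
      (aeval (IsCyclotomicExtension.zeta n ℚ (CyclotomicField n ℚ)) P)) := by
    rw [← hN]; simp
  rw [h3, h1, ← Finset.prod_coe_sort (primitiveRoots n ℂ)]
  refine (Fintype.prod_equiv (hζ.embeddingsEquivPrimitiveRoots ℂ hirr) _ _ ?_).symm
  intro σ
  rw [IsPrimitiveRoot.embeddingsEquivPrimitiveRoots_apply_coe]
  exact (aeval_algHom_apply (σ.restrictScalars ℤ) _ P).symm

end Pool.Agent.FI4
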