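import Pool.Agent.helper59.FI4.SpecI

/-!
Project fi4 (MP_baa4d7_al), block IND, row AM4 (spec of helper59): `k(B) = k(B_N)`. Seat helper24.
-/

set_option autoImplicit false

namespace Pool.Agent.FI4I

open Pool.Agent.helper58.DC Pool.Agent.DI Pool.Agent.GR Pool.Agent.OB Pool.Agent.DR Pool.Agent.FI Pool.Agent.FI3 Pool.Agent.FI4

theorem AM4_fs {G : Type} [Fintype G] (s : Set G) (f : G → ℂ) :
    (∑ᶠ g ∈ s, f g) = ∑ g, s.indicator f g := by
  rw [finsum_mem_def, finsum_eq_sum_of_fintype]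

theorem AM4_Cz {G : Type} [Group G] (y : G) :
    Cz (⊤ : Subgroup G) y = cz (Subgroup.zpowers y) := by
  ext k
  unfold Cz
  rw [Subgroup.mem_inf, Subgroup.mem_centralizer_iff, Subgroup.mem_centralizer_iff]
  constructor
  · rintro ⟨_, h⟩ z hz
    obtain ⟨n, rfl⟩ := Subgroup.mem_zpowers_iff.1 hz
    have h1 : Commute y k := h y rfl
    exact h1.zpow_left n
  · intro h
    refine ⟨trivial, fun z hz => ?_⟩
    rw [Set.mem_singleton_iff] at hz
    rw [hz]
    exact h y (Subgroup.mem_zpowers y)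

theorem AM4_mid {G : Type} [Group G] {p : ℕ} {y : G} (hy : PEl p y) :
    Mid p (Subgroup.zpowers y) (Cz (⊤ : Subgroup G) y) := by
  rw [AM4_Cz]
  refine ⟨?_, ?_, le_refl _, ?_⟩
  · obtain ⟨k, hk⟩ := hy
    rintro ⟨z, hz⟩
    obtain ⟨n, rfl⟩ := Subgroup.mem_zpowers_iff.1 hz
    refine ⟨k, Subtype.ext ?_⟩
    change (y ^ n) ^ p ^ k = 1
    rw [← zpow_natCast, ← zpow_mul, mul_comm, zpow_mul, zpow_natCast, hk, one_zpow]
  · intro z hz
    obtain ⟨n, rfl⟩ := Subgroup.mem_zpowers_iff.1 hz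
    rw [Subgroup.mem_centralizer_iff]
    intro w hw
    obtain ⟨m, rfl⟩ := Subgroup.mem_zpowers_iff.1 hw
    exact (Commute.refl y).zpow_zpow m n
  · intro g hg
    rw [Subgroup.mem_centralizer_iff] at hg
    rw [Subgroup.mem_normalizer_iff]
    intro h
    constructor
    · intro hh
      have h1 := hg h hh
      rw [← h1, mul_inv_cancel_right]
      exact hh
    · intro hh
      have h1 := hg _ hh
      have h2 : g * h * g⁻¹ = h := by
        have h3 : g * h = g * (g * h * g⁻¹) := by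
          rw [← h1]
          group
        exact (mul_left_cancel h3).symm
      rw [h2] at hh
      exact hh

theorem AM4 (hMN4 : MN4_stmt) (hIHN : IHN_stmt) (hLOC : LOC_stmt) (hKNR : KNR_stmt)
    (hVNN : VNN_stmt) (hLBI : LBI_stmt) (hCJR : CJR_stmt) (hFEQ : FEQ_stmt) :
    Pool.Agent.FI4.AM4_stmt := by
  classical
  intro p M hS G _ _ D x θ χ hRt hHyp
  have := Fintype.ofFinite G
  have hχ := hRt.chi
  -- the term
  have hF : ∀ (g y : G), Cz (⊤ : Subgroup G) y ⊓ nz (cjS g D) = Cz (nz (cjS g D)) y := by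
    intro g y
    unfold Cz
    rw [top_inf_eq, inf_comm]
  -- step A
  have hA : ∀ y : G, PEl p y →
      (Nat.card (nz D) : ℂ) * ((Nat.card (Cz (⊤ : Subgroup G) y) : ℂ) * LL p M χ (Cz (⊤ : Subgroup G) y)) =
      ∑ g : G, {g : G | y ∈ cjS g D}.indicator (fun g =>
        (Nat.card (Cz (nz (cjS g D)) y) : ℂ) * LL p M χ (Cz (nz (cjS g D)) y)) g := by
    intro y hy
    have hmid := AM4_mid hy
    have hred := hIHN p M hS G D x θ χ hRt hHyp _ _ hmid
      (fun D' x' θ' χ' h1 h2 => hMN4 p M hS _ D' x' θ' χ' h1 h2)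
    have h1 := hLOC p M hS G D x θ χ hRt _ _ hmid hred
    rw [h1, AM4_fs]
    have hset : {g : G | Subgroup.zpowers y ≤ cjS g D} = {g : G | y ∈ cjS g D} := by
      ext g
      exact Subgroup.zpowers_le
    rw [hset]
    refine Finset.sum_congr rfl fun g _ => ?_
    by_cases hg : y ∈ cjS g D
    · rw [Set.indicator_of_mem (show g ∈ {g : G | y ∈ cjS g D} from hg),
        Set.indicator_of_mem (show g ∈ {g : G | y ∈ cjS g D} from hg), hF g y]
    · rw [Set.indicator_of_notMem (show g ∉ {g : G | y ∈ cjS g D} from hg),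
        Set.indicator_of_notMem (show g ∉ {g : G | y ∈ cjS g D} from hg)]
  -- the inner sum
  have hB : ∀ g : G, ∑ y : G, {y : G | PEl p y}.indicator (fun y => {g : G | y ∈ cjS g D}.indicator (fun g =>
        (Nat.card (Cz (nz (cjS g D)) y) : ℂ) * LL p M χ (Cz (nz (cjS g D)) y)) g) y =
      (Nat.card (nz D) : ℂ) * ((Blk M χ (nz D)).ncard : ℂ) := by
    intro g
    obtain ⟨_, hL⟩ := hLBI p M hS G
    have hFE := hFEQ G M g 1 D D (cz D) θ θ χ
    have hnz : nz (cjS g D) = cjS g (nz D) := hFE.2.1.2.1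
    have hcz : cz (cjS g D) = cjS g (cz D) := hFE.2.1.1
    have hθ1 : cjF g θ ∈ IrrOn (cz (cjS g D)) := by
      rw [hcz]
      exact hFE.2.2.2.1.1 hRt.th
    have hind : Induces M (cjF g θ) χ := ((hFE.2.2.2.2.2.1 hχ).2).2 hRt.ind
    obtain ⟨hRt1, _, _⟩ := hCJR p M hS G D x θ χ hRt g (cjF g θ) hθ1 hind
    have hK := hKNR p M hS G χ (nz (cjS g D))
    have hcard := (hL χ hχ g (nz D))
    rw [hnz] at hK
    rw [hcard.2.1, hcard.2.2, ← hnz] at hK
    rw [hK, AM4_fs]
    refine Finset.sum_congr rfl fun y _ => ?_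
    by_cases hy : PEl p y
    · rw [Set.indicator_of_mem (show y ∈ {y : G | PEl p y} from hy)]
      by_cases hyN : y ∈ nz (cjS g D)
      · rw [Set.indicator_of_mem (show y ∈ {y : G | y ∈ nz (cjS g D) ∧ PEl p y} from ⟨hyN, hy⟩)]
        by_cases hyD : y ∈ cjS g D
        · rw [Set.indicator_of_mem (show g ∈ {g : G | y ∈ cjS g D} from hyD)]
        · rw [Set.indicator_of_notMem (show g ∉ {g : G | y ∈ cjS g D} from hyD)]
          have h0 := hVNN p M hS G (cjS g D) _ _ χ hRt1 y hyN hy hyD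
          unfold LL
          rw [h0, finsum_mem_empty, mul_zero]
      · rw [Set.indicator_of_notMem (show y ∉ {y : G | y ∈ nz (cjS g D) ∧ PEl p y} from fun h => hyN h.1)]
        have hyD : y ∉ cjS g D := fun h => hyN (Subgroup.le_normalizer h)
        rw [Set.indicator_of_notMem (show g ∉ {g : G | y ∈ cjS g D} from hyD)]
    · rw [Set.indicator_of_notMem (show y ∉ {y : G | PEl p y} from hy),
        Set.indicator_of_notMem (show y ∉ {y : G | y ∈ nz (cjS g D) ∧ PEl p y} from fun h => hy h.2)]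
  -- the total
  have hK := hKNR p M hS G χ (⊤ : Subgroup G)
  have hT : (Nat.card (nz D) : ℂ) * ((Nat.card (⊤ : Subgroup G) : ℂ) * ((Blk M χ (⊤ : Subgroup G)).ncard : ℂ)) =
      (Nat.card G : ℂ) * ((Nat.card (nz D) : ℂ) * ((Blk M χ (nz D)).ncard : ℂ)) := by
    rw [hK, AM4_fs, Finset.mul_sum]
    have h1 : ∀ y ∈ (Finset.univ : Finset G), (Nat.card (nz D) : ℂ) *
        {y : G | y ∈ (⊤ : Subgroup G) ∧ PEl p y}.indicator (fun y =>
          (Nat.card (Cz (⊤ : Subgroup G) y) : ℂ) * LL p M χ (Cz (⊤ : Subgroup G) y)) y =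
        ∑ g : G, {y : G | PEl p y}.indicator (fun y => {g : G | y ∈ cjS g D}.indicator (fun g =>
          (Nat.card (Cz (nz (cjS g D)) y) : ℂ) * LL p M χ (Cz (nz (cjS g D)) y)) g) y := by
      intro y _
      by_cases hy : PEl p y
      · rw [Set.indicator_of_mem (show y ∈ {y : G | y ∈ (⊤ : Subgroup G) ∧ PEl p y} from ⟨trivial, hy⟩)]
        rw [hA y hy]
        refine Finset.sum_congr rfl fun g _ => ?_
        rw [Set.indicator_of_mem (show y ∈ {y : G | PEl p y} from hy)]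
      · rw [Set.indicator_of_notMem (show y ∉ {y : G | y ∈ (⊤ : Subgroup G) ∧ PEl p y} from fun h => hy h.2), mul_zero]
        symm
        refine Finset.sum_eq_zero fun g _ => ?_
        rw [Set.indicator_of_notMem (show y ∉ {y : G | PEl p y} from hy)]
    rw [Finset.sum_congr rfl h1, Finset.sum_comm, Finset.sum_congr rfl (fun g _ => hB g), Finset.sum_const,
      Finset.card_univ, nsmul_eq_mul, Nat.card_eq_fintype_card (α := G)]
  have hn : (Nat.card (nz D) : ℂ) ≠ 0 := by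
    have h1 : 0 < Nat.card (nz D) := Nat.card_pos
    exact_mod_cast h1.ne'
  have hG : (Nat.card G : ℂ) ≠ 0 := by
    have h1 : 0 < Nat.card G := Nat.card_pos
    exact_mod_cast h1.ne'
  rw [Subgroup.card_top] at hT
  have h2 : (Nat.card (nz D) : ℂ) * (Nat.card G : ℂ) * ((Blk M χ (⊤ : Subgroup G)).ncard : ℂ) =
      (Nat.card (nz D) : ℂ) * (Nat.card G : ℂ) * ((Blk M χ (nz D)).ncard : ℂ) := by
    rw [mul_assoc, hT]
    ring
  have h3 := mul_left_cancel₀ (mul_ne_zero hn hG) h2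
  exact_mod_cast h3

end Pool.Agent.FI4I
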