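import Pool.Agent.helper58.FI4.SpecC

/-!
Project fi4 (MP_baa4d7_al), block CNT, row CNO (spec of helper58): the subsections `(y, S)` and `(y ^ m, S)` are not conjugate.
Seat helper24.
-/

set_option autoImplicit false

namespace Pool.Agent.FI4C

open Pool.Agent.helper58.DC Pool.Agent.DI Pool.Agent.GR Pool.Agent.OB Pool.Agent.DR Pool.Agent.FI Pool.Agent.FI3 Pool.Agent.FI4

theorem CNO_czbot {G : Type} [Group G] : cz (⊥ : Subgroup G) = ⊤ := by
  refine top_unique fun g _ => ?_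
  rw [Subgroup.mem_centralizer_iff]
  intro h hh
  have h1 : h = 1 := by simpa using hh
  rw [h1, one_mul, mul_one]

theorem CNO_top {G : Type} [Group G] (l : G) : cjS l (⊤ : Subgroup G) = ⊤ := by
  refine top_unique fun g _ => ?_
  rw [mem_cjS]
  trivial

theorem CNO_mem {G : Type} [Group G] {u k : G} :
    k ∈ Cz (⊤ : Subgroup G) u ↔ u * k = k * u := by
  unfold Cz
  rw [Subgroup.mem_inf, Subgroup.mem_centralizer_iff]
  constructor
  · intro h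
    exact h.2 u rfl
  · intro h
    refine ⟨trivial, ?_⟩
    intro v hv
    rw [Set.mem_singleton_iff] at hv
    rw [hv]
    exact h

/-- `Cz ⊤ (u ^ m) = Cz ⊤ u` if `m` is prime to the order of `u`. -/
theorem CNO_Cz {G : Type} [Group G] [Finite G] {u : G} {m : ℕ} (hm : m.Coprime (Nat.card G)) :
    Cz (⊤ : Subgroup G) (u ^ m) = Cz (⊤ : Subgroup G) u := by
  have hco : (orderOf u).Coprime m :=
    (Nat.Coprime.coprime_dvd_right (orderOf_dvd_natCard u) hm).symm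
  obtain ⟨n, hn⟩ := exists_pow_eq_self_of_coprime hco.symm
  ext k
  rw [CNO_mem, CNO_mem]
  constructor
  · intro h
    have h1 : Commute (u ^ m) k := h
    have h2 : Commute ((u ^ m) ^ n) k := h1.pow_left n
    rw [hn] at h2
    exact h2
  · intro h
    have h1 : Commute u k := h
    exact h1.pow_left m

theorem CNO_conj {G : Type} [Group G] {t u : G} {m : ℕ} (h : t * u * t⁻¹ = u ^ m) (j : ℕ) :
    t ^ j * u * (t ^ j)⁻¹ = u ^ (m ^ j) := by
  induction j with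
  | zero => simp
  | succ j ih =>
    have h1 : t ^ (j + 1) * u * (t ^ (j + 1))⁻¹ = t * (t ^ j * u * (t ^ j)⁻¹) * t⁻¹ := by
      rw [pow_succ']
      group
    rw [h1, ih, ← conj_pow, h, ← pow_mul]
    congr 1
    rw [pow_succ']

/-- A power of an element of `TT M D θ`. -/
theorem CNO_TT {G : Type} [Group G] [Finite G] {M : Ideal (integralClosure ℤ ℂ)} {D : Subgroup G} {θ : G → ℂ}
    {t : G} (ht : t ∈ TT M D θ) : 0 < iI M D θ ∧ t ^ iI M D θ ∈ cz D := by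
  have hN : ((cz D).subgroupOf (TT M D θ)).Normal := by
    refine ⟨fun n hn g => ?_⟩
    rw [Subgroup.mem_subgroupOf] at hn ⊢
    exact cz_conj g.2.1 hn
  have h1 := Subgroup.pow_index_mem ((cz D).subgroupOf (TT M D θ)) ⟨t, ht⟩
  refine ⟨Nat.pos_of_ne_zero ?_, ?_⟩
  · exact Subgroup.index_ne_zero_of_finite
  · rw [Subgroup.mem_subgroupOf] at h1
    exact h1

theorem CNO (hQCN : QCNc_stmt) (hQFU : QFUc_stmt) (hCPR : CPR_stmt) (hFEQ : FEQ_stmt) : CNO_stmt := by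
  intro p M hS G _ _ D x θ χ lo hi m hm y hy hy1 ψ hψ hsb w hw hcon
  have hQ := hQCN p M hS G D x θ χ lo ⊥ bot_le y
  rw [CNO_czbot] at hQ
  obtain ⟨l, _, hlD, hl⟩ := hQ trivial hy ψ hψ hsb
  -- the conjugated element
  have hcop := hm.cop
  have hK : cjS l (Cz (⊤ : Subgroup G) y) = Cz (⊤ : Subgroup G) (l * y * l⁻¹) := by
    have h := (hFEQ G M l 1 ⊥ ⊥ (⊤ : Subgroup G) ψ ψ χ).2.2.1 y
    rwa [CNO_top] at h
  have hwu : (l * w * l⁻¹) * (l * y * l⁻¹) * (l * w * l⁻¹)⁻¹ = (l * y * l⁻¹) ^ m := by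
    have h1 : (l * w * l⁻¹) * (l * y * l⁻¹) * (l * w * l⁻¹)⁻¹ = l * (w * y * w⁻¹) * l⁻¹ := by group
    rw [h1, hw, conj_pow]
  have hψ1 : cjF l ψ ∈ IrrOn (Cz (⊤ : Subgroup G) (l * y * l⁻¹)) := by
    have h := ((hFEQ G M l 1 ⊥ ⊥ (Cz (⊤ : Subgroup G) y) ψ ψ χ).2.2.2.1).1 hψ
    rwa [hK] at h
  have hF := hQFU p M hS G D x θ χ lo ⊥ bot_le (l * y * l⁻¹) hlD (l * w * l⁻¹)
  rw [CNO_czbot, hwu, CNO_Cz hcop] at hF
  have hsb2 : SB M (Cz (⊤ : Subgroup G) (l * y * l⁻¹)) θ (cjF (l * w * l⁻¹) (cjF l ψ)) := by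
    have h1 := ((hFEQ G M l 1 ⊥ ⊥ (Cz (⊤ : Subgroup G) y) (cjF w ψ) ψ χ).2.2.2.2.1).1 hcon
    rw [hK] at h1
    have e1 := (hFEQ G M l w ⊥ ⊥ ⊥ ψ ψ χ).1.2.1
    have e2 := (hFEQ G M (l * w * l⁻¹) l ⊥ ⊥ ⊥ ψ ψ χ).1.2.1
    have e3 : l * w * l⁻¹ * l = l * w := by group
    rw [e2, e3, ← e1]
    exact hl.trans h1.symm
  obtain ⟨k, hk, hkt⟩ := hF trivial (D.pow_mem hlD m) (cjF l ψ) hψ1 hl hsb2
  -- the element `t`
  have hk' : (l * y * l⁻¹) * k = k * (l * y * l⁻¹) := CNO_mem.1 hk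
  have ht : (k * (l * w * l⁻¹)) * (l * y * l⁻¹) * (k * (l * w * l⁻¹))⁻¹ = (l * y * l⁻¹) ^ m := by
    have h1 : (k * (l * w * l⁻¹)) * (l * y * l⁻¹) * (k * (l * w * l⁻¹))⁻¹ =
        k * ((l * w * l⁻¹) * (l * y * l⁻¹) * (l * w * l⁻¹)⁻¹) * k⁻¹ := by group
    rw [h1, hwu]
    have h2 : Commute (l * y * l⁻¹) k := hk'
    have h3 : (l * y * l⁻¹) ^ m * k = k * (l * y * l⁻¹) ^ m := h2.pow_left m
    rw [← h3, mul_inv_cancel_right]
  obtain ⟨hi0, hti⟩ := CNO_TT hkt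
  have hpow := CNO_conj ht (iI M D θ)
  have hfix : (l * y * l⁻¹) ^ (m ^ iI M D θ) = (l * y * l⁻¹) ^ 1 := by
    rw [← hpow, pow_one]
    rw [Subgroup.mem_centralizer_iff] at hti
    have h1 := hti _ hlD
    rw [← h1, mul_inv_cancel_right]
  rw [pow_eq_pow_iff_modEq] at hfix
  -- `p` divides the order
  have hp : p.Prime := hS.1
  have hne : l * y * l⁻¹ ≠ 1 := by
    intro h
    apply hy1
    have h1 : y = l⁻¹ * (l * y * l⁻¹) * l := by group
    rw [h1, h]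
    group
  obtain ⟨a, ha⟩ := hy
  have hpa : (l * y * l⁻¹) ^ p ^ a = 1 := by
    rw [conj_pow, ha]
    group
  have hdvd : p ∣ orderOf (l * y * l⁻¹) := by
    have h1 := orderOf_dvd_of_pow_eq_one hpa
    rw [Nat.dvd_prime_pow hp] at h1
    obtain ⟨b, _, hb⟩ := h1
    rcases Nat.eq_zero_or_pos b with h0 | h0
    · rw [h0, pow_zero] at hb
      exact absurd (orderOf_eq_one_iff.1 hb) hne
    · rw [hb]
      exact dvd_pow_self p h0.ne'
  have hpG : p ∣ Nat.card G := hdvd.trans (orderOf_dvd_natCard _)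
  have hfin := hCPR p (Nat.card G) m (iI M D θ) hp hpG hm hi0 (hfix.of_dvd hdvd)
  omega

end Pool.Agent.FI4C
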